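import Pool.Agent.WAX.Stmts

/-!
# Squad WAX (MP_6a3f1a_al), row CTX (helper67)
-/

open scoped BigOperators

noncomputable section

namespace Pool.Agent.PP.TX.H67

open Pool.Agent.PP Pool.Agent.PP.TX

theorem ctx (hclr : ClrStmt) (hclv : TV.ClvStmt) : CtxStmt := by
  intro ℓ _ F _ hF G A _ _ _ _ e V γ f V' γ' h1 h2 h3 h4 a hT
  obtain ⟨hr, hab⟩ := hclr ℓ F hF G A e V γ f V' γ' h1 h2 h3 h4
  obtain ⟨-, hfc, hix⟩ := hclv ℓ F hF G A e V γ f V' γ' h1 h2 h3 h4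
  rcases hT with ⟨h5, h6, h7⟩ | ⟨r, h5, h6⟩
  · exact Or.inl ⟨h5, hfc h6, hix.trans h7⟩
  · refine Or.inr ⟨r, hr r h5, ?_⟩
    rcases h6 with ⟨h7, h8⟩ | ⟨h7, h8, h9⟩ | h7
    · exact Or.inl ⟨lt_of_le_of_lt hix h7, h8⟩
    · exact Or.inr (Or.inl ⟨h7, hab h8, h9⟩)
    · exact Or.inr (Or.inr h7)

end Pool.Agent.PP.TX.H67
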